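import Pool.Agent.H.MP_2f4300_al.Top

set_option autoImplicit false

namespace Pool.Agent.H.MP_2f4300_al

open Set Pointwise

@[ext] structure GA where
  a : ℚ
  b : ℚ
  c : ℚ
  d : ℚ
  p : ℚ
  q : ℚ
  r : ℚ
  s : ℚ
  det : a * d - b * c ≠ 0

instance : Mul GA := ⟨fun x y => ⟨x.a * y.a + x.b * y.c, x.a * y.b + x.b * y.d,
  x.c * y.a + x.d * y.c, x.c * y.b + x.d * y.d,
  x.a * y.p + x.b * y.r + x.p * y.a + x.q * y.c, x.a * y.q + x.b * y.s + x.p * y.b + x.q * y.d,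
  x.c * y.p + x.d * y.r + x.r * y.a + x.s * y.c, x.c * y.q + x.d * y.s + x.r * y.b + x.s * y.d, by
    have := mul_ne_zero x.det y.det
    intro h
    apply this
    linear_combination h⟩⟩

instance : One GA := ⟨⟨1, 0, 0, 1, 0, 0, 0, 0, by norm_num⟩⟩

def GA.D (x : GA) : ℚ := x.a * x.d - x.b * x.c

instance : Inv GA := ⟨fun x => ⟨x.d / x.D, -x.b / x.D, -x.c / x.D, x.a / x.D,
  -((x.d * x.p - x.b * x.r) * x.d - (x.d * x.q - x.b * x.s) * x.c) / x.D ^ 2,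
  -(-(x.d * x.p - x.b * x.r) * x.b + (x.d * x.q - x.b * x.s) * x.a) / x.D ^ 2,
  -((-x.c * x.p + x.a * x.r) * x.d - (-x.c * x.q + x.a * x.s) * x.c) / x.D ^ 2,
  -(-(-x.c * x.p + x.a * x.r) * x.b + (-x.c * x.q + x.a * x.s) * x.a) / x.D ^ 2, by
    have h : x.D ≠ 0 := x.det
    have : x.d / x.D * (x.a / x.D) - -x.b / x.D * (-x.c / x.D) = 1 / x.D := by
      field_simp
      simp only [GA.D]
      ring
    rw [this]
    exact one_div_ne_zero h⟩⟩

@[simp] theorem mul_a (x y : GA) : (x * y).a = x.a * y.a + x.b * y.c := rfl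
@[simp] theorem mul_b (x y : GA) : (x * y).b = x.a * y.b + x.b * y.d := rfl
@[simp] theorem mul_c (x y : GA) : (x * y).c = x.c * y.a + x.d * y.c := rfl
@[simp] theorem mul_d (x y : GA) : (x * y).d = x.c * y.b + x.d * y.d := rfl
@[simp] theorem mul_p (x y : GA) :
  (x * y).p = x.a * y.p + x.b * y.r + x.p * y.a + x.q * y.c := rfl
@[simp] theorem mul_q (x y : GA) :
  (x * y).q = x.a * y.q + x.b * y.s + x.p * y.b + x.q * y.d := rfl
@[simp] theorem mul_r (x y : GA) :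
  (x * y).r = x.c * y.p + x.d * y.r + x.r * y.a + x.s * y.c := rfl
@[simp] theorem mul_s (x y : GA) :
  (x * y).s = x.c * y.q + x.d * y.s + x.r * y.b + x.s * y.d := rfl
@[simp] theorem one_a : (1 : GA).a = 1 := rfl
@[simp] theorem one_b : (1 : GA).b = 0 := rfl
@[simp] theorem one_c : (1 : GA).c = 0 := rfl
@[simp] theorem one_d : (1 : GA).d = 1 := rfl
@[simp] theorem one_p : (1 : GA).p = 0 := rfl
@[simp] theorem one_q : (1 : GA).q = 0 := rfl
@[simp] theorem one_r : (1 : GA).r = 0 := rfl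
@[simp] theorem one_s : (1 : GA).s = 0 := rfl
theorem inv_a (x : GA) : (x⁻¹).a = x.d / x.D := rfl
theorem inv_b (x : GA) : (x⁻¹).b = -x.b / x.D := rfl
theorem inv_c (x : GA) : (x⁻¹).c = -x.c / x.D := rfl
theorem inv_d (x : GA) : (x⁻¹).d = x.a / x.D := rfl
theorem inv_p (x : GA) : (x⁻¹).p =
  -((x.d * x.p - x.b * x.r) * x.d - (x.d * x.q - x.b * x.s) * x.c) / x.D ^ 2 := rfl
theorem inv_q (x : GA) : (x⁻¹).q =
  -(-(x.d * x.p - x.b * x.r) * x.b + (x.d * x.q - x.b * x.s) * x.a) / x.D ^ 2 := rfl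
theorem inv_r (x : GA) : (x⁻¹).r =
  -((-x.c * x.p + x.a * x.r) * x.d - (-x.c * x.q + x.a * x.s) * x.c) / x.D ^ 2 := rfl
theorem inv_s (x : GA) : (x⁻¹).s =
  -(-(-x.c * x.p + x.a * x.r) * x.b + (-x.c * x.q + x.a * x.s) * x.a) / x.D ^ 2 := rfl

instance : Group GA := Group.ofLeftAxioms
  (fun x y z => by ext <;> simp <;> ring)
  (fun x => by ext <;> simp)
  (fun x => by
    have h : x.D ≠ 0 := x.det
    ext <;> simp [inv_a, inv_b, inv_c, inv_d, inv_p, inv_q, inv_r, inv_s] <;> field_simp <;>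
      (try simp only [GA.D]) <;> ring)

instance : Countable GA := by
  refine Function.Injective.countable
    (f := fun x : GA => (x.a, x.b, x.c, x.d, x.p, x.q, x.r, x.s)) ?_
  intro x y h
  simp only [Prod.mk.injEq] at h
  obtain ⟨h1, h2, h3, h4, h5, h6, h7, h8⟩ := h
  ext <;> assumption

def H3 : Subgroup GA where
  carrier := {x | x.p * x.d - x.q * x.c - x.r * x.b + x.s * x.a = 0}
  one_mem' := by simp
  mul_mem' := by
    intro x y hx hy
    simp only [mem_ofPred_eq, mul_a, mul_b, mul_c, mul_d, mul_p, mul_q, mul_r, mul_s] at *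
    linear_combination (y.a * y.d - y.b * y.c) * hx + (x.a * x.d - x.b * x.c) * hy
  inv_mem' := by
    intro x hx
    have h : x.D ≠ 0 := x.det
    simp only [mem_ofPred_eq, inv_a, inv_b, inv_c, inv_d, inv_p, inv_q, inv_r, inv_s] at *
    field_simp
    linear_combination (-(x.a * x.d - x.b * x.c)) * hx

def H2 : Subgroup GA where
  carrier := {x | x.p = 0 ∧ x.q = 0 ∧ x.r = 0 ∧ x.s = 0}
  one_mem' := by simp
  mul_mem' := by
    rintro x y ⟨h1, h2, h3, h4⟩ ⟨k1, k2, k3, k4⟩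
    simp [h1, h2, h3, h4, k1, k2, k3, k4]
  inv_mem' := by
    rintro x ⟨h1, h2, h3, h4⟩
    simp [inv_p, inv_q, inv_r, inv_s, h1, h2, h3, h4]

def H1 : Subgroup GA where
  carrier := {x | (x.p = 0 ∧ x.q = 0 ∧ x.r = 0 ∧ x.s = 0) ∧ x.c = 0}
  one_mem' := by simp
  mul_mem' := by
    rintro x y ⟨⟨h1, h2, h3, h4⟩, h5⟩ ⟨⟨k1, k2, k3, k4⟩, k5⟩
    simp [h1, h2, h3, h4, k1, k2, k3, k4, h5, k5]
  inv_mem' := by
    rintro x ⟨⟨h1, h2, h3, h4⟩, h5⟩
    simp [inv_p, inv_q, inv_r, inv_s, inv_c, h1, h2, h3, h4, h5]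

def KK (L : AddSubgroup ℚ) : Subgroup GA where
  carrier := {x | x.b = 0 ∧ x.c = 0 ∧ x.q = 0 ∧ x.r = 0 ∧ ∃ l ∈ L, x.p = l * x.a ∧ x.s = -l * x.d}
  one_mem' := ⟨rfl, rfl, rfl, rfl, 0, L.zero_mem, by simp, by simp⟩
  mul_mem' := by
    rintro x y ⟨h1, h2, h3, h4, l, hl, h5, h6⟩ ⟨k1, k2, k3, k4, m, hm, k5, k6⟩
    refine ⟨by simp [h1, k1], by simp [h2, k2], by simp [h1, k1, h3, k3],
      by simp [h2, k2, h4, k4], l + m, L.add_mem hl hm, ?_, ?_⟩
    · simp [h1, h3, h5, k5]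
      ring
    · simp [h2, h4, h6, k6]
      ring
  inv_mem' := by
    rintro x ⟨h1, h2, h3, h4, l, hl, h5, h6⟩
    have h : x.D ≠ 0 := x.det
    refine ⟨by simp [inv_b, h1], by simp [inv_c, h2], by simp [inv_q, h1, h3],
      by simp [inv_r, h2, h4], -l, L.neg_mem hl, ?_, ?_⟩
    · rw [inv_p, inv_a]
      field_simp
      simp only [GA.D, h1, h2, h5]
      ring
    · rw [inv_s, inv_d]
      field_simp
      simp only [GA.D, h1, h2, h6]
      ring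

def g (a b c d : ℚ) (h : a * d - b * c ≠ 0) : GA := ⟨a, b, c, d, 0, 0, 0, 0, h⟩

def E (x y z : ℚ) : GA := ⟨1, 0, 0, 1, x, y, z, -x, by norm_num⟩

theorem g_mem (a b c d : ℚ) (h : a * d - b * c ≠ 0) : g a b c d h ∈ H2 := ⟨rfl, rfl, rfl, rfl⟩

theorem KK_le_iff (L M : AddSubgroup ℚ) : KK L ≤ KK M ↔ L ≤ M := by
  constructor
  · intro h l hl
    have : E l 0 0 ∈ KK L := ⟨rfl, rfl, rfl, rfl, l, hl, by simp [E], by simp [E]⟩
    obtain ⟨_, _, _, _, m, hm, h1, _⟩ := h this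
    simp only [E, mul_one] at h1
    exact h1 ▸ hm
  · rintro h x ⟨h1, h2, h3, h4, l, hl, h5⟩
    exact ⟨h1, h2, h3, h4, l, h hl, h5⟩

theorem KK_lt (L : AddSubgroup ℚ) : KK L < H3 := by
  refine lt_of_le_not_ge ?_ ?_
  · rintro x ⟨h1, h2, h3, h4, l, _, h5, h6⟩
    change x.p * x.d - x.q * x.c - x.r * x.b + x.s * x.a = 0
    rw [h1, h2, h5, h6]
    ring
  · intro h
    have : E 0 1 0 ∈ H3 := by
      change (_ : ℚ) = 0
      simp [E]
    have := (h this).2.2.1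
    simp [E] at this

theorem lt01 : KK ⊥ < H1 := by
  refine lt_of_le_not_ge ?_ ?_
  · rintro x ⟨h1, h2, h3, h4, l, hl, h5, h6⟩
    rw [AddSubgroup.mem_bot] at hl
    exact ⟨⟨by simp [h5, hl], h3, h4, by simp [h6, hl]⟩, h2⟩
  · intro h
    have : g 1 1 0 1 (by norm_num) ∈ H1 := ⟨g_mem _ _ _ _ _, rfl⟩
    have := (h this).1
    simp [g] at this

theorem lt12 : H1 < H2 := by
  refine lt_of_le_not_ge (fun x hx => hx.1) ?_
  intro h
  have := (h (g_mem 1 0 1 1 (by norm_num))).2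
  simp [g] at this

theorem lt23 : H2 < H3 := by
  refine lt_of_le_not_ge ?_ ?_
  · rintro x ⟨h1, h2, h3, h4⟩
    change x.p * x.d - x.q * x.c - x.r * x.b + x.s * x.a = 0
    simp [h1, h2, h3, h4]
  · intro h
    have : E 0 1 0 ∈ H3 := by
      change (_ : ℚ) = 0
      simp [E]
    have := (h this).2.1
    simp [E] at this

section
variable {A : Type} [Group A] {H : Subgroup A} {a : A}

theorem R_mul {m n : ℕ} {x y : A} (hx : x ∈ P H a ^ m) (hy : y ∈ P H a ^ n) :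
    x * y ∈ P H a ^ (m + n) := by
  rw [pow_add]
  exact Set.mul_mem_mul hx hy

theorem R_mono {m n : ℕ} {x : A} (hx : x ∈ P H a ^ m) (h : m ≤ n) : x ∈ P H a ^ n :=
  Set.pow_subset_pow_right (s := P H a) (Or.inl H.one_mem) h hx

theorem R_H {x : A} (hx : x ∈ H) : x ∈ P H a ^ 1 := by
  rw [pow_one]
  exact Or.inl hx

theorem R_c {x : A} (hx : x ∈ H) : a * x * a⁻¹ ∈ P H a ^ 1 := by
  rw [pow_one]
  exact Or.inr ⟨x, hx, rfl⟩

end

theorem diag_mem (x y : ℚ) (h : x * y - 0 * 0 ≠ 0) : g x 0 0 y h ∈ KK ⊥ :=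
  ⟨rfl, rfl, rfl, rfl, 0, AddSubgroup.zero_mem _, by simp [g], by simp [g]⟩

theorem sm01 : ∀ a ∈ H1, a ∉ KK ⊥ → ∀ x ∈ H1, x ∈ P (KK ⊥) a ^ 3 := by
  rintro a ⟨⟨h1, h2, h3, h4⟩, h5⟩ ha x ⟨⟨k1, k2, k3, k4⟩, k5⟩
  have hb : a.b ≠ 0 := fun h => ha ⟨h, h5, h2, h3, 0, AddSubgroup.zero_mem _, by simp [h1],
    by simp [h4]⟩
  have hd : a.d ≠ 0 := by
    intro h
    apply a.det
    simp [h, h5]
  have xa : x.a ≠ 0 := by
    intro h
    apply x.det
    simp [h, k5]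
  have xd : x.d ≠ 0 := by
    intro h
    apply x.det
    simp [h, k5]
  by_cases xb : x.b = 0
  · exact R_mono (R_H ⟨xb, k5, k2, k3, 0, AddSubgroup.zero_mem _, by simp [k1], by simp [k4]⟩)
      (by norm_num)
  have e : a * g 2 0 0 1 (by norm_num) * a⁻¹ = g 2 (-a.b / a.d) 0 1 (by norm_num) := by
    rw [mul_inv_eq_iff_eq_mul]
    ext <;> simp [g, h1, h2, h3, h4, h5]
    · ring
    · field_simp
      ring
  have e2 : x = g (x.a / 2) 0 0 (-(x.d * x.a * a.b) / (2 * x.b * a.d)) (by simp [*]) *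
      g 2 (-a.b / a.d) 0 1 (by norm_num) *
      g 1 0 0 (-(2 * x.b * a.d) / (x.a * a.b)) (by simp [*]) := by
    ext <;> simp [g, k1, k2, k3, k4, k5] <;> field_simp
  rw [e2, ← e]
  exact R_mul (R_mul (R_H (diag_mem _ _ _)) (R_c (diag_mem _ _ _))) (R_H (diag_mem _ _ _))

theorem sm12 : ∀ a ∈ H2, a ∉ H1 → ∀ x ∈ H2, x ∈ P H1 a ^ 3 := by
  intro a h ha x k
  have hc : a.c ≠ 0 := fun c => ha ⟨h, c⟩
  by_cases xc : x.c = 0
  · exact R_mono (R_H ⟨k, xc⟩) (by norm_num)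
  have hu : ∀ t : ℚ, g 1 t 0 1 (by norm_num) ∈ H1 := fun t => ⟨g_mem _ _ _ _ _, rfl⟩
  have he := R_c (a := a) (hu 1)
  have he2 : a * g 1 1 0 1 (by norm_num) * a⁻¹ ∈ H2 :=
    H2.mul_mem (H2.mul_mem h (g_mem _ _ _ _ _)) (H2.inv_mem h)
  have he3 : (a * g 1 1 0 1 (by norm_num) * a⁻¹).c ≠ 0 := by
    have hD : a.D ≠ 0 := a.det
    have : (a * g 1 1 0 1 (by norm_num) * a⁻¹).c = -(a.c ^ 2) / a.D := by
      simp [g, inv_a, inv_c]
      field_simp
      ring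
    rw [this]
    simp [hc, hD]
  generalize a * g 1 1 0 1 (by norm_num) * a⁻¹ = e at he he2 he3
  have h3 : e⁻¹ * (g 1 (e.a / e.c - x.a / x.c) 0 1 (by norm_num) * x) ∈ H1 := by
    refine ⟨H2.mul_mem (H2.inv_mem he2) (H2.mul_mem (g_mem _ _ _ _ _) k), ?_⟩
    have hD : e.D ≠ 0 := e.det
    simp [g, inv_c, inv_d]
    field_simp
    ring
  have := R_mul (R_mul (R_H (H1.inv_mem (hu (e.a / e.c - x.a / x.c)))) he) (R_H h3)
  simpa [mul_assoc] using this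

theorem E_mul (x y z x' y' z' : ℚ) : E x y z * E x' y' z' = E (x + x') (y + y') (z + z') := by
  ext <;> simp [E] <;> ring

theorem E_inv (x y z : ℚ) : (E x y z)⁻¹ = E (-x) (-y) (-z) := by
  rw [inv_eq_iff_mul_eq_one]
  ext <;> simp [E]

theorem dec (x : GA) (hx : x ∈ H3) : ∃ u v w, x = E u v w * g x.a x.b x.c x.d x.det := by
  have hD : x.D ≠ 0 := x.det
  change x.p * x.d - x.q * x.c - x.r * x.b + x.s * x.a = 0 at hx
  refine ⟨(x.p * x.d - x.q * x.c) / x.D, (x.q * x.a - x.p * x.b) / x.D,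
    (x.r * x.d - x.s * x.c) / x.D, ?_⟩
  ext <;> simp [E, g] <;> field_simp <;> simp only [GA.D]
  · ring
  · ring
  · linear_combination x.c * hx
  · linear_combination x.d * hx

theorem sm23 : ∀ a ∈ H3, a ∉ H2 → ∀ x ∈ H3, x ∈ P H2 a ^ 25 := by
  intro a h ha x k
  obtain ⟨u, v, w, ea⟩ := dec a h
  have hO : ∀ k1 ∈ H2, ∀ k2 ∈ H2,
      (k1 * E u v w * k1⁻¹) * (k2 * E u v w * k2⁻¹)⁻¹ ∈ P H2 a ^ 3 := by
    intro k1 h1 k2 h2
    have hg := g_mem a.a a.b a.c a.d a.det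
    generalize g a.a a.b a.c a.d a.det = g0 at ea hg
    have := R_mul (R_mul (R_H (a := a) h1) (R_c (a := a) (H2.mul_mem (H2.mul_mem (H2.inv_mem hg)
      (H2.mul_mem (H2.inv_mem h1) h2)) hg))) (R_H (H2.inv_mem h2))
    convert this using 1
    rw [ea]
    group
  have h1 : ∃ k0 ∈ H2, ∃ u' v' w', v' ≠ 0 ∧ k0 * E u v w * k0⁻¹ = E u' v' w' := by
    by_cases hv : v = 0
    · by_cases hw : w = 0
      · have hu : u ≠ 0 := by
          intro hu
          apply ha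
          rw [ea]
          refine H2.mul_mem ?_ (g_mem _ _ _ _ _)
          exact ⟨hu, hv, hw, by simp [E, hu]⟩
        refine ⟨_, g_mem 1 1 0 1 (by norm_num), u, -2 * u, 0, by simp [hu], ?_⟩
        rw [mul_inv_eq_iff_eq_mul]
        ext <;> simp [E, g, hv, hw]
        ring
      · refine ⟨_, g_mem 0 1 1 0 (by norm_num), -u, w, 0, hw, ?_⟩
        rw [mul_inv_eq_iff_eq_mul]
        ext <;> simp [E, g, hv]
    · exact ⟨1, H2.one_mem, u, v, w, hv, by simp⟩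
  obtain ⟨k0, hk0, u', v', w', hv', e0⟩ := h1
  have h2 : ∀ s : ℚ, s ≠ 0 → ∃ k1 ∈ H2, k1 * E u v w * k1⁻¹ = E u' (s * v') (w' / s) := by
    intro s hs
    refine ⟨g s 0 0 1 (by simp [hs]) * k0, H2.mul_mem (g_mem _ _ _ _ _) hk0, ?_⟩
    have : g s 0 0 1 (by simp [hs]) * E u' v' w' * (g s 0 0 1 (by simp [hs]))⁻¹ =
        E u' (s * v') (w' / s) := by
      rw [mul_inv_eq_iff_eq_mul]
      ext <;> simp [E, g, hs]
      ring
    rw [← this, ← e0]
    group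
  have h3 : ∀ s t : ℚ, s ≠ 0 → t ≠ 0 → E 0 (s * v' - t * v') (w' / s - w' / t) ∈ P H2 a ^ 3 := by
    intro s t hs ht
    obtain ⟨k1, m1, e1⟩ := h2 s hs
    obtain ⟨k2, m2, e2⟩ := h2 t ht
    have := hO k1 m1 k2 m2
    rw [e1, e2, E_inv, E_mul] at this
    simpa [sub_eq_add_neg] using this
  have h4 : ∀ l : ℚ, E 0 l 0 ∈ P H2 a ^ 6 := by
    intro l
    by_cases hl : l = 0
    · refine R_mono (R_H ?_) (by norm_num)
      exact ⟨rfl, hl, rfl, by simp [E]⟩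
    · have := R_mul (h3 (5 * l / (4 * v')) (2 * (5 * l / (4 * v'))) (by simp [*]) (by simp [*]))
        (h3 (3 * (5 * l / (4 * v'))) (6 / 5 * (5 * l / (4 * v'))) (by simp [*]) (by simp [*]))
      rw [E_mul] at this
      convert this using 2
      · simp
      · field_simp
        ring
      · field_simp
        ring
  have h5 : ∀ l : ℚ, E 0 0 l ∈ P H2 a ^ 8 := by
    intro l
    have hg := g_mem 0 1 1 0 (by norm_num)
    have := R_mul (R_mul (R_H hg) (h4 l)) (R_H (H2.inv_mem hg))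
    convert this using 1
    rw [eq_mul_inv_iff_mul_eq]
    ext <;> simp [E, g]
  have h6 : ∀ l : ℚ, E l (-l) l ∈ P H2 a ^ 10 := by
    intro l
    have hg := g_mem 1 1 0 1 (by norm_num)
    have := R_mul (R_mul (R_H hg) (h5 l)) (R_H (H2.inv_mem hg))
    convert this using 1
    rw [eq_mul_inv_iff_mul_eq]
    ext <;> simp [E, g]
  obtain ⟨p, q, r, ex⟩ := dec x k
  have := R_mul (R_mul (R_mul (h6 p) (h4 (q + p))) (h5 (r - p)))
    (R_H (g_mem x.a x.b x.c x.d x.det))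
  rw [E_mul, E_mul] at this
  rw [ex]
  convert this using 3 <;> ring

end Pool.Agent.H.MP_2f4300_al
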