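import Mathlib

set_option autoImplicit false

namespace Pool.Agent.H.MP_2f4300_al

open Filter Set Function Pointwise

variable {A : Type} [Group A]

def FS (A : Type) [Group A] : Subgroup (ℕ → A) where
  carrier := {x | (mulSupport x).Finite}
  one_mem' := by simp
  mul_mem' := fun {x y} hx hy => (Set.Finite.union hx hy).subset (mulSupport_mul x y)
  inv_mem' := fun {x} hx => by
    have : mulSupport x⁻¹ = mulSupport x := mulSupport_inv x
    simpa [this] using hx

def sg (n : ℕ) : A →* FS A where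
  toFun a := ⟨Pi.mulSingle n a, (Set.finite_singleton n).subset Pi.mulSupport_mulSingle_subset⟩
  map_one' := Subtype.ext (Pi.mulSingle_one n)
  map_mul' a b := Subtype.ext (Pi.mulSingle_mul (f := fun _ => A) n a b)

theorem sg_same (n : ℕ) (a : A) : (sg n a).1 n = a :=
  Pi.mulSingle_eq_same (M := fun _ => A) n a

theorem sg_ne {n m : ℕ} (h : m ≠ n) (a : A) : (sg n a).1 m = 1 :=
  Pi.mulSingle_eq_of_ne (M := fun _ => A) h a

theorem sg_conj (n : ℕ) (x : FS A) (h : A) :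
    sg n (x.1 n * h * (x.1 n)⁻¹) = x * sg n h * x⁻¹ := by
  apply Subtype.ext
  funext m
  change _ = x.1 m * (sg n h).1 m * (x.1 m)⁻¹
  by_cases e : m = n
  · subst e
    rw [sg_same, sg_same]
  · rw [sg_ne e, sg_ne e]
    simp

def U (H : Subgroup A) (B : ℕ → Set ℕ) : Set (FS A) :=
  {x | (∀ n, x.1 n ∈ H) ∧ ∃ φ : ℕ → ℕ, (∀ n m, x.1 n ≠ 1 → x.1 m ≠ 1 → φ n = φ m → n = m) ∧
    ∀ n, x.1 n ≠ 1 → n ∈ B (φ n)}

theorem U_mono (H : Subgroup A) {B C : ℕ → Set ℕ} (h : ∀ j, B j ⊆ C j) : U H B ⊆ U H C := by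
  rintro x ⟨h1, φ, h2, h3⟩
  exact ⟨h1, φ, h2, fun n hn => h _ (h3 n hn)⟩

theorem sg_mem (H : Subgroup A) (B : ℕ → Set ℕ) {n : ℕ} (hn : n ∈ B 0) {h : A} (hh : h ∈ H) :
    sg n h ∈ U H B := by
  have key : ∀ m, (sg n h).1 m ≠ 1 → m = n := by
    intro m hm
    by_contra e
    exact hm (sg_ne e h)
  refine ⟨fun m => ?_, fun _ => 0, fun a b ha hb _ => by rw [key a ha, key b hb],
    fun m hm => by rw [key m hm]; exact hn⟩
  by_cases e : m = n
  · subst e
    rw [sg_same]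
    exact hh
  · rw [sg_ne e]
    exact H.one_mem

@[instance_reducible] def gfb (H : Subgroup A) : GroupFilterBasis (FS A) where
  sets := {V | ∃ B : ℕ → Set ℕ, (∀ j, B j ∈ hyperfilter ℕ) ∧ V = U H B}
  nonempty := ⟨_, fun _ => univ, fun _ => univ_mem, rfl⟩
  inter_sets := by
    rintro _ _ ⟨B, hB, rfl⟩ ⟨C, hC, rfl⟩
    exact ⟨_, ⟨fun j => B j ∩ C j, fun j => inter_mem (hB j) (hC j), rfl⟩,
      subset_inter (U_mono H fun j => inter_subset_left) (U_mono H fun j => inter_subset_right)⟩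
  one' := by
    rintro _ ⟨B, _, rfl⟩
    exact ⟨fun n => H.one_mem, id, fun _ _ _ _ h => h, fun n hn => absurd rfl hn⟩
  mul' := by
    rintro _ ⟨B, hB, rfl⟩
    refine ⟨_, ⟨fun j => B (2 * j) ∩ B (2 * j + 1), fun j => inter_mem (hB _) (hB _), rfl⟩, ?_⟩
    rintro _ ⟨x, ⟨h1, φ, h2, h3⟩, y, ⟨k1, ψ, k2, k3⟩, rfl⟩
    classical
    have key : ∀ n, (x * y).1 n ≠ 1 → x.1 n = 1 → y.1 n ≠ 1 := by
      intro n hn hx hy
      apply hn
      change x.1 n * y.1 n = 1
      rw [hx, hy, one_mul]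
    refine ⟨fun n => H.mul_mem (h1 n) (k1 n),
      fun n => if x.1 n = 1 then 2 * ψ n + 1 else 2 * φ n, ?_, ?_⟩
    · intro n m hn hm e
      by_cases a : x.1 n = 1 <;> by_cases b : x.1 m = 1 <;> simp only [a, b, if_true, if_false] at e
      · exact k2 n m (key n hn a) (key m hm b) (by omega)
      · omega
      · omega
      · exact h2 n m a b (by omega)
    · intro n hn
      by_cases a : x.1 n = 1 <;> simp only [a, if_true, if_false]
      · exact (k3 n (key n hn a)).2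
      · exact (h3 n a).1
  inv' := by
    rintro _ ⟨B, hB, rfl⟩
    refine ⟨_, ⟨B, hB, rfl⟩, ?_⟩
    rintro x ⟨h1, φ, h2, h3⟩
    have key : ∀ n, (x⁻¹).1 n ≠ 1 → x.1 n ≠ 1 := by
      intro n hn hx
      apply hn
      change (x.1 n)⁻¹ = 1
      rw [hx, inv_one]
    exact ⟨fun n => H.inv_mem (h1 n), φ, fun n m hn hm => h2 n m (key n hn) (key m hm),
      fun n hn => h3 n (key n hn)⟩
  conj' := by
    rintro g _ ⟨B, hB, rfl⟩
    have hg : (mulSupport g.1)ᶜ ∈ hyperfilter ℕ := Set.Finite.compl_mem_hyperfilter g.2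
    refine ⟨_, ⟨fun j => B j ∩ (mulSupport g.1)ᶜ, fun j => inter_mem (hB j) hg, rfl⟩, ?_⟩
    intro x hx
    have e : g * x * g⁻¹ = x := by
      apply Subtype.ext
      funext n
      change g.1 n * x.1 n * (g.1 n)⁻¹ = x.1 n
      obtain ⟨_, φ, _, h3⟩ := hx
      by_cases a : x.1 n = 1
      · simp [a]
      · have := (h3 n a).2
        simp only [mem_compl_iff, mem_mulSupport, not_not] at this
        simp [this]
    change g * x * g⁻¹ ∈ U H B
    rw [e]
    exact U_mono H (fun j => inter_subset_left) hx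

def tau (H : Subgroup A) : GroupTopology (FS A) := ⟨(gfb H).topology, (gfb H).isTopologicalGroup⟩

def nh {G : Type} [Group G] (t : GroupTopology G) : Filter G := @nhds G t.toTopologicalSpace 1

theorem mem_tau (H : Subgroup A) (V : Set (FS A)) :
    V ∈ nh (tau H) ↔ ∃ B : ℕ → Set ℕ, (∀ j, B j ∈ hyperfilter ℕ) ∧ U H B ⊆ V := by
  unfold nh tau
  rw [(gfb H).nhds_one_hasBasis.mem_iff]
  constructor
  · rintro ⟨_, ⟨B, hB, rfl⟩, h⟩
    exact ⟨B, hB, h⟩
  · rintro ⟨B, hB, h⟩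
    exact ⟨_, ⟨B, hB, rfl⟩, h⟩

theorem le_iff {G : Type} [Group G] (s t : GroupTopology G) : s ≤ t ↔ nh s ≤ nh t := by
  constructor
  · intro h
    exact nhds_mono h
  · intro h
    rw [← GroupTopology.toTopologicalSpace_le, ← continuous_id_iff_le]
    refine @continuous_of_continuousAt_one G s.toTopologicalSpace _ s.toIsTopologicalGroup G
      (G →* G) _ t.toTopologicalSpace t.toIsTopologicalGroup.toContinuousMul _ _
      (MonoidHom.id G) ?_
    exact h

theorem nh_one {G : Type} [Group G] (t : GroupTopology G) {V : Set G} (h : V ∈ nh t) :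
    (1 : G) ∈ V := @mem_of_mem_nhds G t.toTopologicalSpace 1 V h

theorem nh_split {G : Type} [Group G] (t : GroupTopology G) {V : Set G} (h : V ∈ nh t) :
    ∃ W ∈ nh t, ∀ x ∈ W, ∀ y ∈ W, x * y ∈ V := by
  let := t.toTopologicalSpace
  have := t.toIsTopologicalGroup
  exact exists_nhds_one_split h

theorem nh_inv {G : Type} [Group G] (t : GroupTopology G) {V : Set G} (h : V ∈ nh t) :
    {x | x⁻¹ ∈ V} ∈ nh t := by
  let := t.toTopologicalSpace
  have := t.toIsTopologicalGroup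
  exact inv_mem_nhds_one G h

theorem nh_pow {G : Type} [Group G] (t : GroupTopology G) (C : ℕ) :
    ∀ V ∈ nh t, ∃ W ∈ nh t, W ^ C ⊆ V := by
  induction C with
  | zero =>
    intro V hV
    refine ⟨univ, univ_mem, ?_⟩
    rw [pow_zero]
    rintro _ rfl
    exact nh_one t hV
  | succ C ih =>
    intro V hV
    obtain ⟨W, hW, h⟩ := nh_split t hV
    obtain ⟨W', hW', h'⟩ := ih W hW
    refine ⟨W ∩ W', inter_mem hW hW', ?_⟩
    rw [pow_succ]
    rintro _ ⟨x, hx, y, hy, rfl⟩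
    exact h x (h' (Set.pow_subset_pow_left inter_subset_right hx)) y hy.1

theorem tau_le (H : Subgroup A) (t : GroupTopology (FS A))
    (h : ∀ V ∈ nh t, {n | ∀ a ∈ H, sg n a ∈ V} ∈ hyperfilter ℕ) : tau H ≤ t := by
  rw [le_iff]
  intro V hV
  choose! f hf hf' using fun (V : Set (FS A)) (hV : V ∈ nh t) => nh_split t hV
  let W : ℕ → Set (FS A) := fun j => f^[j] V
  have hW : ∀ j, W j ∈ nh t := by
    intro j
    induction j with
    | zero => exact hV
    | succ j ih =>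
      simp only [W, iterate_succ_apply']
      exact hf _ ih
  have hW' : ∀ j, ∀ x ∈ W (j + 1), ∀ y ∈ W (j + 1), x * y ∈ W j := by
    intro j
    simp only [W, iterate_succ_apply']
    exact hf' _ (hW j)
  rw [mem_tau]
  refine ⟨fun j => {n | ∀ a ∈ H, sg n a ∈ W (j + 1)}, fun j => h _ (hW _), ?_⟩
  rintro x ⟨h1, φ, h2, h3⟩
  have key : ∀ d j (y : FS A), (∀ n, y.1 n ≠ 1 → y.1 n = x.1 n ∧ j ≤ φ n ∧ φ n < j + d) →
      y ∈ W j := by
    intro d
    induction d with
    | zero =>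
      intro j y hy
      have : y = 1 := by
        apply Subtype.ext
        funext n
        by_contra e
        have := hy n e
        omega
      rw [this]
      exact nh_one t (hW j)
    | succ d ih =>
      intro j y hy
      by_cases e : ∃ n, y.1 n ≠ 1 ∧ φ n = j
      · obtain ⟨n, hn, e⟩ := e
        have hx : x.1 n ≠ 1 := by
          rw [← (hy n hn).1]
          exact hn
        have e2 : y = sg n (x.1 n) * ((sg n (x.1 n))⁻¹ * y) := by simp
        rw [e2]
        refine hW' j _ ?_ _ (ih (j + 1) _ ?_)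
        · have := h3 n hx
          rw [e] at this
          exact this _ (h1 n)
        · intro m hm
          change ((sg n (x.1 n)).1 m)⁻¹ * y.1 m ≠ 1 at hm
          change ((sg n (x.1 n)).1 m)⁻¹ * y.1 m = _ ∧ _
          have hmn : m ≠ n := by
            rintro rfl
            rw [sg_same, (hy m hn).1] at hm
            simp at hm
          rw [sg_ne hmn, inv_one, one_mul] at hm ⊢
          obtain ⟨a1, a2, a3⟩ := hy m hm
          have : φ m ≠ φ n := fun c => hmn (h2 m n (a1 ▸ hm) hx c)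
          exact ⟨a1, by omega, by omega⟩
      · have := ih (j + 1) y (fun n hn => by
          obtain ⟨a1, a2, a3⟩ := hy n hn
          have : φ n ≠ j := fun c => e ⟨n, hn, c⟩
          exact ⟨a1, by omega, by omega⟩)
        simpa using hW' j y this 1 (nh_one t (hW _))
  obtain ⟨N, hN⟩ := (Set.Finite.image φ x.2).bddAbove
  refine key (N + 1) 0 x (fun n hn => ⟨rfl, by omega, ?_⟩)
  have : φ n ≤ N := hN ⟨n, hn, rfl⟩
  omega

theorem tau_le_iff (H K : Subgroup A) : tau H ≤ tau K ↔ H ≤ K := by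
  constructor
  · intro h a ha
    rw [le_iff] at h
    have : U K (fun _ => univ) ∈ nh (tau K) :=
      (mem_tau K _).2 ⟨_, fun _ => univ_mem, subset_rfl⟩
    obtain ⟨B, hB, hs⟩ := (mem_tau H _).1 (h this)
    obtain ⟨n, hn⟩ := Ultrafilter.nonempty_of_mem (hB 0)
    have := (hs (sg_mem H B hn ha)).1 n
    rwa [sg_same] at this
  · intro h
    rw [le_iff]
    intro V hV
    obtain ⟨B, hB, hs⟩ := (mem_tau K _).1 hV
    refine (mem_tau H _).2 ⟨B, hB, fun x hx => hs ⟨fun n => h (hx.1 n), hx.2⟩⟩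

theorem tau_lt_iff (H K : Subgroup A) : tau H < tau K ↔ H < K := by
  rw [lt_iff_le_not_ge, lt_iff_le_not_ge, tau_le_iff, tau_le_iff]

theorem tau_t2 (H : Subgroup A) : @T2Space (FS A) (tau H).toTopologicalSpace := by
  refine (@GroupFilterBasis.t2Space_iff_sInter_subset _ _ (tau H).toTopologicalSpace (gfb H)
    rfl).2 ?_
  intro x hx
  apply Subtype.ext
  funext n
  by_contra e
  have := hx (U H fun _ => {n}ᶜ) ⟨_, fun _ =>
    Set.Finite.compl_mem_hyperfilter (Set.finite_singleton n), rfl⟩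
  obtain ⟨_, φ, _, h3⟩ := this
  exact h3 n e rfl

def P (H : Subgroup A) (a : A) : Set A := {e | e ∈ H ∨ ∃ h ∈ H, e = a * h * a⁻¹}

theorem tau_cov (H K : Subgroup A) (hlt : H < K) (C : ℕ)
    (hC : ∀ a ∈ K, a ∉ H → ∀ x ∈ K, x ∈ P H a ^ C) : tau H ⋖ tau K := by
  refine ⟨(tau_lt_iff H K).2 hlt, ?_⟩
  intro t h1 h2
  apply h1.not_ge
  have h3 : ¬ ∀ V ∈ nh t, {n | ∀ a ∈ K, sg n a ∈ V} ∈ hyperfilter ℕ :=
    fun c => h2.not_ge (tau_le K t c)
  push Not at h3
  obtain ⟨V, hV, hZ⟩ := h3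
  rw [← Ultrafilter.compl_mem_iff_notMem] at hZ
  obtain ⟨W1, hW1, e1⟩ := nh_pow t C V hV
  obtain ⟨W2, hW2, e2⟩ := nh_split t hW1
  obtain ⟨W3, hW3, e3⟩ := nh_split t hW2
  have k1 := (le_iff _ _).1 h1.le
  have k2 := (le_iff _ _).1 h2.le
  obtain ⟨B, hB, hs⟩ := (mem_tau H _).1 (k1 (inter_mem hW1 hW3))
  have hW4 : U K (fun _ => B 0 ∩ {n | ∀ a ∈ K, sg n a ∈ V}ᶜ) ∈ nh t :=
    k2 ((mem_tau K _).2 ⟨_, fun _ => inter_mem (hB 0) hZ, subset_rfl⟩)
  rw [le_iff]
  intro V' hV'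
  obtain ⟨D, hD, hs'⟩ := (mem_tau H _).1 hV'
  have hW5 : U K D ∈ nh t := k2 ((mem_tau K _).2 ⟨_, hD, subset_rfl⟩)
  filter_upwards [hW3, nh_inv t hW2, hW4, hW5] with x x3 x2 x4 x5
  refine hs' ⟨fun n => ?_, x5.2⟩
  by_contra hn
  have hne : x.1 n ≠ 1 := fun c => hn (c ▸ H.one_mem)
  obtain ⟨xK, φ, _, hφ⟩ := x4
  obtain ⟨n0, nZ⟩ := hφ n hne
  apply nZ
  intro a ha
  apply e1
  have hP : sg n '' P H (x.1 n) ⊆ W1 := by
    rintro _ ⟨e, he | ⟨h, hh, rfl⟩, rfl⟩
    · exact (hs (sg_mem H B n0 he)).1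
    · rw [sg_conj]
      exact e2 _ (e3 _ x3 _ (hs (sg_mem H B n0 hh)).2) _ x2
  apply Set.pow_subset_pow_left hP
  rw [← Set.image_pow]
  exact ⟨a, hC _ (xK n) hn a ha, rfl⟩

theorem FS_countable [Countable A] : Countable (FS A) := by
  classical
  let f : FS A → (ℕ →₀ Additive A) := fun x =>
    Finsupp.ofSupportFinite (fun n => Additive.ofMul (x.1 n)) x.2
  have : Countable (Additive A) := ‹Countable A›
  refine Function.Injective.countable (f := f) ?_
  intro x y h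
  apply Subtype.ext
  funext n
  exact congrArg (fun z : ℕ →₀ Additive A => Additive.toMul (z n)) h

end Pool.Agent.H.MP_2f4300_al
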